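import Mathlib

/-!
# Product intersection sets of infinite groups

Every infinite group `G` has a strictly decreasing sequence `(A_q)` of subsets whose product
intersection set is `{1} ∪ {h : h ≥ 3}`.

Proof. Let `K` be a countable infinite subgroup of `G`. There are `g ∈ K` and `A ⊆ K` with
`g ∉ A²` and `A³ = K`: one enumerates `K` and adds greedily three elements `a, b, c` with
product `x` for every `x ∈ K`. The only serious obstruction is the set `S` of the square
roots of `g`, which must be avoided. If `S` is finite, it is harmless. If the centraliser of `g`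
(which contains `S`) is infinite and not covered by three cosets, one chooses `a, b, c` outside of
the centraliser. If all elements of `K` fail both conditions, all elements are squares, all sixth
powers are central, so that all involutions are central, and `g = 1` works. Finally
`A_q = A ∪ {a_i⁻¹ g : i ≥ q}` for distinct `a_i ∈ A`.
-/

set_option autoImplicit false

open Set Pointwise

namespace Pool.Agent.Results.MP_1adc52_al.ThreeNotTwo

/-- The product intersection set of the sequence `(A_q)`: all `h ≥ 1` such that the `h`-fold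
product set of the intersection is the intersection of the `h`-fold product sets. -/
def interSet {G : Type*} [Group G] (A : ℕ → Set G) : Set ℕ :=
  {h | 1 ≤ h ∧ (⋂ q, A q) ^ h = ⋂ q, (A q) ^ h}

section Greedy

variable {G : Type*} [Group G]

/-- no product of two elements of `A` is `g` -/
def Good (g : G) (A : Finset G) : Prop := ∀ u ∈ A, ∀ v ∈ A, u * v ≠ g

lemma greedy [Countable G] (g : G)
    (hstep : ∀ (x : G) (F : Finset G), ∃ a b c : G, a * b * c = x ∧ a ∉ F ∧ b ∉ F ∧ c ∉ F ∧
      ∀ u ∈ ({a, b, c} : Set G), ∀ v ∈ ({a, b, c} : Set G), u * v ≠ g) :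
    ∃ A : Set G, g ∉ A * A ∧ A * A * A = univ := by
  classical
  obtain ⟨x, hx⟩ := exists_surjective_nat G
  have step : ∀ (n : ℕ) (A : {A : Finset G // Good g A}), ∃ B : {A : Finset G // Good g A},
      A.1 ⊆ B.1 ∧ ∃ a ∈ B.1, ∃ b ∈ B.1, ∃ c ∈ B.1, a * b * c = x n := by
    rintro n ⟨A, hA⟩
    obtain ⟨a, b, c, habc, ha, hb, hc, h⟩ := hstep (x n)
      (A.image (fun v => v⁻¹ * g) ∪ A.image (fun v => g * v⁻¹))
    have key : ∀ z : G, z ∉ A.image (fun v => v⁻¹ * g) ∪ A.image (fun v => g * v⁻¹) →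
        ∀ v ∈ A, z * v ≠ g ∧ v * z ≠ g := by
      intro z hz v hv
      refine ⟨fun h => hz ?_, fun h => hz ?_⟩
      · refine Finset.mem_union_right _ (Finset.mem_image.2 ⟨v, hv, ?_⟩)
        rw [← h, mul_inv_cancel_right]
      · refine Finset.mem_union_left _ (Finset.mem_image.2 ⟨v, hv, ?_⟩)
        rw [← h, inv_mul_cancel_left]
    have key2 : ∀ z ∈ ({a, b, c} : Set G), ∀ v ∈ A, z * v ≠ g ∧ v * z ≠ g := by
      rintro z (rfl | rfl | rfl)
      · exact key _ ha
      · exact key _ hb
      · exact key _ hc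
    refine ⟨⟨A ∪ {a, b, c}, ?_⟩, Finset.subset_union_left, a, ?_, b, ?_, c, ?_, habc⟩
    · intro u hu v hv
      have hu' : u ∈ A ∨ u ∈ ({a, b, c} : Set G) :=
        (Finset.mem_union.1 hu).imp id fun h => by simpa using h
      have hv' : v ∈ A ∨ v ∈ ({a, b, c} : Set G) :=
        (Finset.mem_union.1 hv).imp id fun h => by simpa using h
      rcases hu' with hu' | hu' <;> rcases hv' with hv' | hv'
      · exact hA u hu' v hv'
      · exact (key2 v hv' u hu').2
      · exact (key2 u hu' v hv').1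
      · exact h u hu' v hv'
    all_goals simp
  choose! f hf hf' using step
  let B : ℕ → {A : Finset G // Good g A} := fun n => Nat.rec ⟨∅, by simp [Good]⟩ (fun k A => f k A) n
  have hB : ∀ n, B (n + 1) = f n (B n) := fun n => rfl
  have hmono : Monotone fun n => (B n).1 := by
    refine monotone_nat_of_le_succ fun n => ?_
    rw [hB]
    exact hf n (B n)
  refine ⟨⋃ n, ((B n).1 : Set G), ?_, eq_univ_of_forall fun y => ?_⟩
  · rintro ⟨u, hu, v, hv, huv⟩
    obtain ⟨m, hm⟩ := mem_iUnion.1 hu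
    obtain ⟨n, hn⟩ := mem_iUnion.1 hv
    exact (B (max m n)).2 u (hmono (le_max_left m n) hm) v (hmono (le_max_right m n) hn) huv
  · obtain ⟨n, rfl⟩ := hx y
    obtain ⟨a, ha, b, hb, c, hc, habc⟩ := hf' n (B n)
    rw [← hB] at ha hb hc
    exact ⟨a * b, ⟨a, mem_iUnion.2 ⟨n + 1, ha⟩, b, mem_iUnion.2 ⟨n + 1, hb⟩, rfl⟩, c,
      mem_iUnion.2 ⟨n + 1, hc⟩, habc⟩

lemma step_of_thin [Infinite G] (g : G) (T : Set G) (hT : ∀ a, a * a = g → a ∈ T)
    (h1 : Tᶜ.Infinite)
    (h2 : ∀ y, y ≠ g → {b | b ∉ T ∧ b⁻¹ * y ∉ T ∧ b⁻¹ * y * b ≠ g}.Infinite)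
    (x : G) (F : Finset G) : ∃ a b c : G, a * b * c = x ∧ a ∉ F ∧ b ∉ F ∧ c ∉ F ∧
      ∀ u ∈ ({a, b, c} : Set G), ∀ v ∈ ({a, b, c} : Set G), u * v ≠ g := by
  classical
  obtain ⟨a, haT, ha⟩ := h1.exists_notMem_finset (F ∪ {x * g⁻¹})
  have hy : a⁻¹ * x ≠ g := by
    rintro rfl
    apply ha
    simp
  have haF : a ∉ F := fun h => ha (Finset.mem_union_left _ h)
  set y := a⁻¹ * x with hydef
  obtain ⟨b, ⟨hbT, hcT, hcb⟩, hb⟩ := (h2 y hy).exists_notMem_finset
    ((F ∪ {a⁻¹ * g, g * a⁻¹}) ∪ (F ∪ {a⁻¹ * g, g * a⁻¹}).image (fun f => y * f⁻¹))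
  have hbE : b ∉ F ∪ {a⁻¹ * g, g * a⁻¹} := fun h => hb (Finset.mem_union_left _ h)
  have hcE : b⁻¹ * y ∉ F ∪ {a⁻¹ * g, g * a⁻¹} := by
    intro h
    refine hb (Finset.mem_union_right _ (Finset.mem_image.2 ⟨_, h, ?_⟩))
    group
  simp only [Finset.mem_union, Finset.mem_insert, Finset.mem_singleton, not_or] at hbE hcE
  refine ⟨a, b, b⁻¹ * y, ?_, haF, hbE.1, hcE.1, ?_⟩
  · rw [hydef]; group
  · rintro u (rfl | rfl | rfl) v (rfl | rfl | rfl)
    · exact fun h => haT (hT _ h)
    · exact fun h => hbE.2.1 (by rw [← h]; group)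
    · exact fun h => hcE.2.1 (by rw [← h]; group)
    · exact fun h => hbE.2.2 (by rw [← h]; group)
    · exact fun h => hbT (hT _ h)
    · exact fun h => hy (by rw [← h]; group)
    · exact fun h => hcE.2.2 (by rw [← h]; group)
    · exact hcb
    · exact fun h => hcT (hT _ h)

/-- for `y ≠ g` infinitely many `b` do not conjugate `y` to `g` -/
lemma infinite_conj [Infinite G] {y g : G} (hy : y ≠ g) : {b | b⁻¹ * y * b ≠ g}.Infinite := by
  intro hfin
  -- the complement `D` is cofinite
  have hD : ∀ b b' : G, b⁻¹ * y * b = g → b'⁻¹ * y * b' = g →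
      b⁻¹ * b' ∈ Subgroup.centralizer ({g} : Set G) := by
    intro b b' h h'
    rw [Subgroup.mem_centralizer_singleton_iff]
    nth_rw 1 [← h']
    rw [← h]
    group
  have hne : ∃ b0 : G, b0⁻¹ * y * b0 = g := by
    by_contra h
    push Not at h
    exact infinite_univ (hfin.subset fun b _ => h b)
  obtain ⟨b0, hb0⟩ := hne
  -- the centraliser of `g` is disjoint from `D`
  have hC : ∀ c ∈ Subgroup.centralizer ({g} : Set G), c⁻¹ * y * c ≠ g := by
    intro c hc h
    rw [Subgroup.mem_centralizer_singleton_iff] at hc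
    apply hy
    calc y = c * (c⁻¹ * y * c) * c⁻¹ := by group
      _ = c * g * c⁻¹ := by rw [h]
      _ = g := by rw [hc]; group
  have hCfin : ((Subgroup.centralizer ({g} : Set G) : Subgroup G) : Set G).Finite :=
    hfin.subset fun c hc => hC c hc
  have : (univ : Set G).Finite := by
    refine (hfin.union (hCfin.image fun c => b0 * c)).subset fun b _ => ?_
    by_cases hb : b⁻¹ * y * b = g
    · exact Or.inr ⟨b0⁻¹ * b, hD b0 b hb0 hb, by group⟩
    · exact Or.inl hb
  exact infinite_univ this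

/-- the case of finitely many square roots -/
lemma thin_finite [Infinite G] (g : G) (hS : {a : G | a * a = g}.Finite) :
    ({a : G | a * a = g}ᶜ).Infinite ∧ ∀ y, y ≠ g →
      {b | b ∉ {a : G | a * a = g} ∧ b⁻¹ * y ∉ {a : G | a * a = g} ∧ b⁻¹ * y * b ≠ g}.Infinite := by
  refine ⟨hS.infinite_compl, fun y hy => ?_⟩
  have h := ((infinite_conj hy).sdiff hS).sdiff (hS.image fun a => y * a⁻¹)
  refine h.mono ?_
  rintro b ⟨⟨hb1, hb2⟩, hb3⟩
  refine ⟨hb2, fun hb4 => hb3 ⟨_, hb4, ?_⟩, hb1⟩
  group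

/-- the case of a subgroup not covered by three cosets -/
lemma thin_subgroup (g : G) (C : Subgroup G) (hC : (C : Set G).Infinite)
    (hcov : ∀ s t : G, ∃ r, r ∉ C ∧ s⁻¹ * r ∉ C ∧ t⁻¹ * r ∉ C)
    (hD : ∀ y, y ≠ g → ∃ b0, ∀ b, b⁻¹ * y * b = g → b0⁻¹ * b ∈ C) :
    ((C : Set G)ᶜ).Infinite ∧ ∀ y, y ≠ g →
      {b | b ∉ (C : Set G) ∧ b⁻¹ * y ∉ (C : Set G) ∧ b⁻¹ * y * b ≠ g}.Infinite := by
  have key : ∀ y, y ≠ g →
      {b | b ∉ (C : Set G) ∧ b⁻¹ * y ∉ (C : Set G) ∧ b⁻¹ * y * b ≠ g}.Infinite := by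
    intro y hy
    obtain ⟨b0, hb0⟩ := hD y hy
    obtain ⟨r, hr1, hr2, hr3⟩ := hcov y b0
    refine (hC.image (f := fun c => r * c) fun c _ c' _ h => mul_left_cancel h).mono ?_
    rintro _ ⟨c, hc, rfl⟩
    have hc' : c ∈ C := hc
    refine ⟨fun h => hr1 ?_, fun h => hr2 ?_, fun h => hr3 ?_⟩
    · have := C.mul_mem h (C.inv_mem hc')
      rwa [mul_inv_cancel_right] at this
    · have := C.inv_mem (C.mul_mem hc' h)
      have h2 : (c * ((r * c)⁻¹ * y))⁻¹ = y⁻¹ * r := by group
      rwa [h2] at this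
    · have := C.mul_mem (hb0 _ h) (C.inv_mem hc')
      have h2 : b0⁻¹ * (r * c) * c⁻¹ = b0⁻¹ * r := by group
      rwa [h2] at this
  refine ⟨?_, key⟩
  obtain ⟨r, hr, -, -⟩ := hcov 1 1
  refine (hC.image (f := fun c => r * c) fun c _ c' _ h => mul_left_cancel h).mono ?_
  rintro _ ⟨c, hc, rfl⟩ h
  have hc' : c ∈ C := hc
  have h' : r * c ∈ C := h
  apply hr
  have := C.mul_mem h' (C.inv_mem hc')
  rwa [mul_inv_cancel_right] at this

/-- a subgroup covering the group by three cosets has index at most three -/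
lemma index_le {C : Subgroup G} {s t : G} (h : ∀ r, r ∉ C → s⁻¹ * r ∉ C → t⁻¹ * r ∈ C) :
    C.index ≠ 0 ∧ C.index ≤ 3 := by
  classical
  have h1 : (univ : Set (G ⧸ C)) ⊆ ({((1 : G) : G ⧸ C), (s : G ⧸ C), (t : G ⧸ C)} : Finset (G ⧸ C)) := by
    rintro q -
    obtain ⟨r, rfl⟩ := QuotientGroup.mk_surjective q
    by_cases h1 : r ∈ C
    · have : ((1 : G) : G ⧸ C) = r := QuotientGroup.eq.2 (by simpa using h1)
      simp [← this]
    · by_cases h2 : s⁻¹ * r ∈ C
      · have : (s : G ⧸ C) = r := QuotientGroup.eq.2 h2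
        simp [← this]
      · have : (t : G ⧸ C) = r := QuotientGroup.eq.2 (h r h1 h2)
        simp [← this]
  have hfin : Finite (G ⧸ C) := finite_univ_iff.1 ((Finset.finite_toSet _).subset h1)
  refine ⟨?_, ?_⟩
  · rw [Subgroup.index]
    exact Nat.card_pos.ne'
  · rw [Subgroup.index, ← Nat.card_univ, Nat.card_coe_set_eq]
    refine (ncard_le_ncard h1 (Finset.finite_toSet _)).trans ?_
    rw [ncard_coe_finset]
    exact Finset.card_le_three

theorem exists_pair [Countable G] [Infinite G] :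
    ∃ (g : G) (A : Set G), g ∉ A * A ∧ A * A * A = univ := by
  classical
  by_cases h1 : ∃ g : G, {a : G | a * a = g}.Finite
  · obtain ⟨g, hg⟩ := h1
    obtain ⟨h2, h3⟩ := thin_finite g hg
    exact ⟨g, greedy g fun x F => step_of_thin g _ (fun a ha => ha) h2 h3 x F⟩
  push Not at h1
  have hCinf : ∀ g : G, ((Subgroup.centralizer ({g} : Set G) : Subgroup G) : Set G).Infinite := by
    intro g
    refine (h1 g).mono fun a ha => ?_
    have ha' : a * a = g := ha
    show a ∈ Subgroup.centralizer ({g} : Set G)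
    rw [Subgroup.mem_centralizer_singleton_iff, ← ha', mul_assoc]
  by_cases h2 : ∃ g : G, ∀ s t : G, ∃ r, r ∉ Subgroup.centralizer ({g} : Set G) ∧
      s⁻¹ * r ∉ Subgroup.centralizer ({g} : Set G) ∧ t⁻¹ * r ∉ Subgroup.centralizer ({g} : Set G)
  · obtain ⟨g, hg⟩ := h2
    obtain ⟨h3, h4⟩ := thin_subgroup g (Subgroup.centralizer ({g} : Set G)) (hCinf g) hg (by
      intro y hy
      by_cases hb : ∃ b0 : G, b0⁻¹ * y * b0 = g
      · obtain ⟨b0, hb0⟩ := hb
        refine ⟨b0, fun b h => ?_⟩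
        rw [Subgroup.mem_centralizer_singleton_iff]
        nth_rw 1 [← h]
        rw [← hb0]
        group
      · push Not at hb
        exact ⟨1, fun b h => absurd h (hb b)⟩)
    refine ⟨g, greedy g fun x F => step_of_thin g _ (fun a ha => ?_) h3 h4 x F⟩
    show a ∈ Subgroup.centralizer ({g} : Set G)
    rw [Subgroup.mem_centralizer_singleton_iff, ← ha, mul_assoc]
  push Not at h2
  -- all sixth powers are central
  have h6 : ∀ a g : G, a ^ 6 * g = g * a ^ 6 := by
    intro a g
    obtain ⟨s, t, hst⟩ := h2 g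
    obtain ⟨hi, hi3⟩ := index_le hst
    obtain ⟨n, hn0, hn, han⟩ := Subgroup.exists_pow_mem_of_index_ne_zero hi a
    have hn3 : n ≤ 3 := hn.trans hi3
    rw [← Subgroup.mem_centralizer_singleton_iff]
    have hdvd : n ∣ 6 := by interval_cases n <;> decide
    obtain ⟨m, hm⟩ := hdvd
    rw [hm, pow_mul]
    exact Subgroup.pow_mem _ han m
  have hsq : ∀ z : G, ∃ a, a * a = z := fun z => (h1 z).nonempty
  have hcube : ∀ z g : G, z ^ 3 * g = g * z ^ 3 := by
    intro z g
    obtain ⟨a, rfl⟩ := hsq z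
    have : (a * a) ^ 3 = a ^ 6 := by rw [← pow_two, ← pow_mul]
    rw [this]
    exact h6 a g
  have hinv : ∀ z : G, z * z = 1 → ∀ g, z * g = g * z := by
    intro z hz g
    have h := hcube z g
    rwa [pow_succ, pow_two, hz, one_mul] at h
  let C : Subgroup G :=
    { carrier := {a | a * a = 1}
      mul_mem' := by
        intro a b ha hb
        have ha' : a * a = 1 := ha
        have hb' : b * b = 1 := hb
        show a * b * (a * b) = 1
        calc a * b * (a * b) = a * (b * a) * b := by group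
          _ = a * (a * b) * b := by rw [hinv b hb' a]
          _ = (a * a) * (b * b) := by group
          _ = 1 := by rw [ha', hb', one_mul]
      one_mem' := by simp
      inv_mem' := by
        intro a ha
        have ha' : a * a = 1 := ha
        show a⁻¹ * a⁻¹ = 1
        rw [← mul_inv_rev, ha', inv_one] }
  have hCmem : ∀ a, a ∈ C ↔ a * a = 1 := fun a => Iff.rfl
  obtain ⟨h3, h4⟩ := thin_subgroup 1 C (h1 1) (by
      intro s t
      by_contra hcon
      push Not at hcon
      have hval : ∀ r u : G, u⁻¹ * r ∈ C → r * r = u * u := by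
        intro r u hur
        have h := (hCmem _).1 hur
        have h' := hinv _ h
        calc r * r = (u * (u⁻¹ * r)) * (u * (u⁻¹ * r)) := by group
          _ = u * ((u⁻¹ * r) * u) * (u⁻¹ * r) := by group
          _ = u * (u * (u⁻¹ * r)) * (u⁻¹ * r) := by rw [h' u]
          _ = u * u * ((u⁻¹ * r) * (u⁻¹ * r)) := by group
          _ = u * u := by rw [h, mul_one]
      have : (univ : Set G) ⊆ {1, s * s, t * t} := by
        intro z _
        obtain ⟨a, rfl⟩ := hsq z
        by_cases h1 : a ∈ C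
        · left; exact h1
        · by_cases h2 : s⁻¹ * a ∈ C
          · right; left; exact hval a s h2
          · right; right; exact hval a t (hcon a h1 h2)
      exact infinite_univ ((toFinite _).subset this)) (by
      intro y hy
      refine ⟨1, fun b h => absurd ?_ hy⟩
      calc y = b * (b⁻¹ * y * b) * b⁻¹ := by group
        _ = 1 := by rw [h]; group)
  exact ⟨1, greedy 1 fun x F => step_of_thin 1 _ (fun a ha => ha) h3 h4 x F⟩

end Greedy

/-- Every infinite group contains a countable infinite subgroup. -/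
lemma exists_countable_subgroup (G : Type*) [Group G] [Infinite G] :
    ∃ K : Subgroup G, Countable K ∧ Infinite K := by
  let f : ℕ ↪ G := Infinite.natEmbedding G
  let K : Subgroup G := (FreeGroup.lift f).range
  refine ⟨K, ?_, ?_⟩
  · have : Countable (FreeGroup ℕ) := by
      unfold FreeGroup
      infer_instance
    exact (MonoidHom.rangeRestrict_surjective (FreeGroup.lift f)).countable
  · refine Infinite.of_injective (fun n => (⟨f n, FreeGroup.of n, by simp⟩ : K)) ?_
    intro m n h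
    exact f.injective (congrArg Subtype.val h)

/-- Every infinite group has a strictly decreasing sequence of subsets whose product intersection
set is `{1} ∪ {h : h ≥ 3}`. -/
theorem result (G : Type*) [Group G] [Infinite G] :
    ∃ A : ℕ → Set G, Antitone A ∧ (∀ q, A (q + 1) ≠ A q) ∧
      interSet A = {h | h = 1 ∨ 3 ≤ h} := by
  classical
  obtain ⟨K, hKc, hKi⟩ := exists_countable_subgroup G
  obtain ⟨g', B, hgB, hB3⟩ := exists_pair (G := K)
  let A0 : Set G := (fun k : K => (k : G)) '' B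
  let g : G := g'
  have hA0K : ∀ a ∈ A0, a ∈ K := by
    rintro _ ⟨b, -, rfl⟩
    exact b.2
  have hgA : g ∉ A0 * A0 := by
    rintro ⟨_, ⟨u, hu, rfl⟩, _, ⟨v, hv, rfl⟩, huv⟩
    exact hgB ⟨u, hu, v, hv, Subtype.ext huv⟩
  have hA3 : A0 * A0 * A0 = (K : Set G) := by
    apply Subset.antisymm
    · rintro _ ⟨_, ⟨u, hu, v, hv, rfl⟩, w, hw, rfl⟩
      exact K.mul_mem (K.mul_mem (hA0K u hu) (hA0K v hv)) (hA0K w hw)
    · intro k hk
      have : (⟨k, hk⟩ : K) ∈ B * B * B := by rw [hB3]; trivial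
      obtain ⟨_, ⟨u, hu, v, hv, rfl⟩, w, hw, huvw⟩ := this
      exact ⟨_, ⟨u, ⟨u, hu, rfl⟩, v, ⟨v, hv, rfl⟩, rfl⟩, w, ⟨w, hw, rfl⟩, congrArg Subtype.val huvw⟩
  have hA0inf : A0.Infinite := by
    intro hfin
    have : (K : Set G).Finite := by
      rw [← hA3]
      exact (hfin.mul hfin).mul hfin
    exact this.not_infinite (infinite_coe_iff.1 hKi)
  let a : ℕ ↪ A0 := hA0inf.natEmbedding
  have ha : ∀ i, (a i : G) ∈ A0 := fun i => (a i).2
  have hainj : ∀ i j, (a i : G) = a j → i = j := fun i j h => a.injective (Subtype.ext h)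
  let A : ℕ → Set G := fun q => A0 ∪ {x | ∃ i, q ≤ i ∧ x = (a i : G)⁻¹ * g}
  have hnot : ∀ i, (a i : G)⁻¹ * g ∉ A0 := by
    intro i hi
    exact hgA ⟨a i, ha i, _, hi, by simp⟩
  have hAnti : Antitone A := by
    intro p q hpq x hx
    rcases hx with hx | ⟨i, hi, rfl⟩
    · exact Or.inl hx
    · exact Or.inr ⟨i, hpq.trans hi, rfl⟩
  have hInter : ⋂ q, A q = A0 := by
    apply Subset.antisymm
    · intro x hx
      by_contra hx0
      rw [mem_iInter] at hx
      obtain ⟨i, -, hi⟩ := (hx 0).resolve_left hx0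
      obtain ⟨j, hj, hj'⟩ := (hx (i + 1)).resolve_left hx0
      rw [hi] at hj'
      have := hainj i j (inv_injective (mul_right_cancel hj'))
      omega
    · exact subset_iInter fun q => subset_union_left
  have hAK : ∀ q, A q ⊆ (K : Set G) := by
    rintro q x (hx | ⟨i, -, rfl⟩)
    · exact hA0K x hx
    · exact K.mul_mem (K.inv_mem (hA0K _ (ha i))) g'.2
  have hpowK : ∀ (D : Set G), D ⊆ (K : Set G) → ∀ h, D ^ h ⊆ (K : Set G) := by
    intro D hD h
    induction h with
    | zero =>
      rw [pow_zero]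
      rintro _ rfl
      exact K.one_mem
    | succ n ih =>
      rw [pow_succ]
      rintro _ ⟨u, hu, v, hv, rfl⟩
      exact K.mul_mem (ih hu) (hD hv)
  have hpow3 : ∀ h, 3 ≤ h → A0 ^ h = (K : Set G) := by
    intro h hh
    induction h, hh using Nat.le_induction with
    | base =>
      rw [← hA3, pow_succ, pow_two]
    | succ n hn ih =>
      rw [pow_succ, ih]
      apply Subset.antisymm
      · rintro _ ⟨u, hu, v, hv, rfl⟩
        exact K.mul_mem hu (hA0K v hv)
      · intro k hk
        refine ⟨k * (a 0 : G)⁻¹, K.mul_mem hk (K.inv_mem (hA0K _ (ha 0))), a 0, ha 0, ?_⟩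
        simp
  refine ⟨A, hAnti, ?_, ?_⟩
  · intro q hq
    have h1 : (a q : G)⁻¹ * g ∈ A q := Or.inr ⟨q, le_rfl, rfl⟩
    rw [← hq] at h1
    rcases h1 with h1 | ⟨i, hi, hi'⟩
    · exact hnot q h1
    · have := hainj q i (inv_injective (mul_right_cancel hi'))
      omega
  · ext h
    simp only [interSet, mem_ofPred_eq]
    rw [hInter]
    constructor
    · rintro ⟨h1, h2⟩
      by_contra hcon
      push Not at hcon
      have hh : h = 2 := by omega
      subst hh
      have hg : g ∈ ⋂ q, A q ^ 2 := by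
        rw [mem_iInter]
        intro q
        rw [pow_two]
        exact ⟨a q, Or.inl (ha q), _, Or.inr ⟨q, le_rfl, rfl⟩, by simp⟩
      rw [← h2, pow_two] at hg
      exact hgA hg
    · rintro (rfl | h3)
      · exact ⟨le_rfl, by simp only [pow_one]; exact hInter.symm⟩
      · refine ⟨by omega, ?_⟩
        rw [hpow3 h h3]
        apply Subset.antisymm
        · rw [← hpow3 h h3]
          exact subset_iInter fun q => pow_subset_pow_left subset_union_left
        · exact (iInter_subset _ 0).trans (hpowK _ (hAK 0) h)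

end Pool.Agent.Results.MP_1adc52_al.ThreeNotTwo
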